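import Pool.Agent.Helper88.T1.Df

/-!
MP_e1889a_ag, T1: Cramer's rule for a derivation of a complete local domain of dimension `N` with residue
field `ℂ` and an `N`-vector field.
-/

set_option autoImplicit false

namespace Pool.Agent.Helper46.T1

open IsLocalRing Pool.Agent.Helper11.SY Pool.Agent.Helper88.T1

noncomputable section

variable {R : Type} [CommRing R] [Algebra ℂ R]

/-- a derivation lowers the order by at most one -/
theorem der_pow (I : Ideal R) (D : Derivation ℂ R R) (k : ℕ) :
    ∀ f ∈ I ^ (k + 1), D f ∈ I ^ k := by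
  induction k with
  | zero => intro f _; simp
  | succ k ih =>
    intro f hf
    rw [pow_succ] at hf
    refine Submodule.mul_induction_on hf ?_ ?_
    · intro a ha b hb
      rw [D.leibniz, smul_eq_mul, smul_eq_mul]
      refine Ideal.add_mem _ (Ideal.mul_mem_right _ _ ha) ?_
      rw [pow_succ, mul_comm b]
      exact Ideal.mul_mem_mul (ih a ha) hb
    · intro a b ha hb
      rw [map_add]
      exact Ideal.add_mem _ ha hb

/-- a derivation vanishing on a subalgebra over which everything is integral is zero -/
theorem der_int [IsDomain R] (A : Subalgebra ℂ R) (hint : ∀ f : R, IsIntegral A f)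
    (D : Derivation ℂ R R) (hD : ∀ a ∈ A, D a = 0) (f : R) : D f = 0 := by
  classical
  have hex : ∃ n : ℕ, ∃ P : Polynomial A, P ≠ 0 ∧ P.natDegree = n ∧ Polynomial.aeval f P = 0 := by
    obtain ⟨P, hP, hf⟩ := hint f
    exact ⟨P.natDegree, P, hP.ne_zero, rfl, hf⟩
  obtain ⟨P, hP0, hPn, hPf⟩ := Nat.find_spec hex
  have hmin : ∀ Q : Polynomial A, Q ≠ 0 → Q.natDegree < P.natDegree →
      Polynomial.aeval f Q ≠ 0 := by
    intro Q hQ0 hQ hQf
    rw [hPn] at hQ
    exact Nat.find_min hex hQ ⟨Q, hQ0, rfl, hQf⟩
  have hdeg : P.natDegree ≠ 0 := by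
    intro h
    rw [Polynomial.eq_C_of_natDegree_eq_zero h, Polynomial.aeval_C] at hPf
    apply hP0
    rw [Polynomial.eq_C_of_natDegree_eq_zero h]
    have : P.coeff 0 = 0 := Subtype.ext (by simpa using hPf)
    rw [this, Polynomial.C_0]
  have : CharZero R := charZero_of_injective_algebraMap (algebraMap ℂ R).injective
  have : CharZero A := ⟨fun m n h => by
    have h' := congrArg (fun a : A => (a : R)) h
    simpa using h'⟩
  have hd0 : Polynomial.derivative P ≠ 0 := by
    intro h
    exact hdeg (Polynomial.derivative_eq_zero.1 h)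
  have hne := hmin _ hd0 (Polynomial.natDegree_derivative_lt hdeg)
  let D' : Derivation A R R := Derivation.mk'
    { toFun := D
      map_add' := fun a b => map_add D a b
      map_smul' := fun a b => by
        change D ((a : R) * b) = (a : R) * D b
        rw [D.leibniz, hD a a.2, smul_zero, add_zero, smul_eq_mul] }
    (fun a b => D.leibniz a b)
  have h1 := D'.map_aeval P f
  rw [hPf, map_zero] at h1
  have h2 : Polynomial.aeval f (Polynomial.derivative P) * D f = 0 := by
    rw [← smul_eq_mul]
    exact h1.symm
  exact (mul_eq_zero.1 h2).resolve_left hne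

variable [IsLocalRing R]

/-- the closure of the algebra generated by the `x i` -/
def cl {N : ℕ} (x : Fin N → R) : Subalgebra ℂ R where
  carrier := {f | ∀ k : ℕ, ∃ p : MvPolynomial (Fin N) ℂ,
    f - MvPolynomial.aeval x p ∈ maximalIdeal R ^ k}
  mul_mem' {a b} ha hb k := by
    obtain ⟨p, hp⟩ := ha k
    obtain ⟨q, hq⟩ := hb k
    refine ⟨p * q, ?_⟩
    have : a * b - MvPolynomial.aeval x (p * q) =
        a * (b - MvPolynomial.aeval x q) + (a - MvPolynomial.aeval x p) * MvPolynomial.aeval x q := by
      rw [map_mul]; ring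
    rw [this]
    exact Ideal.add_mem _ (Ideal.mul_mem_left _ _ hq) (Ideal.mul_mem_right _ _ hp)
  add_mem' {a b} ha hb k := by
    obtain ⟨p, hp⟩ := ha k
    obtain ⟨q, hq⟩ := hb k
    refine ⟨p + q, ?_⟩
    have : a + b - MvPolynomial.aeval x (p + q) =
        (a - MvPolynomial.aeval x p) + (b - MvPolynomial.aeval x q) := by
      rw [map_add]; ring
    rw [this]
    exact Ideal.add_mem _ hp hq
  algebraMap_mem' c k := by
    refine ⟨MvPolynomial.C c, ?_⟩
    rw [MvPolynomial.aeval_C, sub_self]
    exact Ideal.zero_mem _

theorem der_cl {N : ℕ} (x : Fin N → R) (D : Derivation ℂ R R) (hD : ∀ i, D (x i) = 0)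
    [IsHausdorff (maximalIdeal R) R] : ∀ a ∈ cl x, D a = 0 := by
  intro a ha
  refine IsHausdorff.haus (I := maximalIdeal R) inferInstance _ fun k => ?_
  rw [SModEq.zero]
  simp only [smul_eq_mul, Ideal.mul_top]
  obtain ⟨p, hp⟩ := ha (k + 1)
  have h1 := der_pow _ D k _ hp
  have h2 : D (MvPolynomial.aeval x p) = 0 := by
    have h3 : Set.EqOn D (0 : Derivation ℂ R R) (Set.range x) := by
      rintro _ ⟨i, rfl⟩
      simp [hD i]
    have h4 := Derivation.eqOn_adjoin h3 (x := MvPolynomial.aeval x p)
      (by rw [Algebra.adjoin_range_eq_range_aeval]; exact ⟨p, rfl⟩)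
    simpa using h4
  rw [map_sub, h2, sub_zero] at h1
  exact h1

/-- finitely many elements span modulo a power of the maximal ideal -/
theorem exists_span [IsNoetherianRing R]
    (hres : ∀ f : R, ∃ c : ℂ, f - algebraMap ℂ R c ∈ maximalIdeal R) (n : ℕ) :
    ∃ E : Finset R, ∀ f : R, ∃ e ∈ Submodule.span ℂ (E : Set R), f - e ∈ maximalIdeal R ^ n := by
  classical
  induction n with
  | zero => exact ⟨∅, fun f => ⟨0, Submodule.zero_mem _, by simp⟩⟩
  | succ n ih =>
    obtain ⟨E, hE⟩ := ih
    obtain ⟨G, hG⟩ : (maximalIdeal R ^ n).FG := IsNoetherian.noetherian _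
    refine ⟨E ∪ G, fun f => ?_⟩
    obtain ⟨e, he, hf⟩ := hE f
    have key : ∀ g ∈ maximalIdeal R ^ n, ∃ e' ∈ Submodule.span ℂ (G : Set R),
        g - e' ∈ maximalIdeal R ^ (n + 1) := by
      intro g hg
      rw [← hG] at hg
      refine Submodule.span_induction ?_ ?_ ?_ ?_ hg
      · intro y hy
        exact ⟨y, Submodule.subset_span hy, by simp⟩
      · exact ⟨0, Submodule.zero_mem _, by simp⟩
      · rintro y z _ _ ⟨a, ha, hya⟩ ⟨b, hb, hzb⟩
        refine ⟨a + b, Submodule.add_mem _ ha hb, ?_⟩
        have : y + z - (a + b) = (y - a) + (z - b) := by ring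
        rw [this]
        exact Ideal.add_mem _ hya hzb
      · rintro r y hy ⟨a, ha, hya⟩
        obtain ⟨c, hc⟩ := hres r
        refine ⟨c • a, Submodule.smul_mem _ _ ha, ?_⟩
        have hym : y ∈ maximalIdeal R ^ n := by rw [← hG]; exact hy
        have : r • y - c • a = (r - algebraMap ℂ R c) * y + algebraMap ℂ R c * (y - a) := by
          rw [smul_eq_mul, Algebra.smul_def c a]; ring
        rw [this]
        refine Ideal.add_mem _ ?_ (Ideal.mul_mem_left _ _ hya)
        rw [pow_succ, mul_comm _ y]
        exact Ideal.mul_mem_mul hym hc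
    obtain ⟨e', he', hf'⟩ := key _ hf
    refine ⟨e + e', Submodule.add_mem _ (Submodule.span_mono (by simp) he)
      (Submodule.span_mono (by simp) he'), ?_⟩
    rw [← sub_sub]
    exact hf'

omit [IsLocalRing R] in
/-- one step of the approximation -/
theorem step {N : ℕ} (x : Fin N → R) (E : Finset R)
    (hE : ∀ f : R, ∃ e ∈ Submodule.span ℂ (E : Set R), f - e ∈ Ideal.span (Set.range x)) (k : ℕ) :
    ∀ f ∈ Ideal.span (Set.range x) ^ k, ∃ p : R → MvPolynomial (Fin N) ℂ,
      (∀ e, MvPolynomial.aeval x (p e) ∈ Ideal.span (Set.range x) ^ k) ∧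
      f - ∑ e ∈ E, MvPolynomial.aeval x (p e) * e ∈ Ideal.span (Set.range x) ^ (k + 1) := by
  classical
  set I := Ideal.span (Set.range x) with hI
  induction k with
  | zero =>
    intro f _
    obtain ⟨e, he, hf⟩ := hE f
    obtain ⟨c, -, hc⟩ := Submodule.mem_span_finset.1 he
    refine ⟨fun e => MvPolynomial.C (c e), fun e => by simp, ?_⟩
    have : ∑ e ∈ E, MvPolynomial.aeval x (MvPolynomial.C (c e)) * e = e := by
      rw [← hc]
      refine Finset.sum_congr rfl fun e _ => ?_
      rw [MvPolynomial.aeval_C, Algebra.smul_def]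
    rw [this]
    simpa using hf
  | succ k ih =>
    intro f hf
    have hadd : ∀ f g : R,
        (∃ p : R → MvPolynomial (Fin N) ℂ, (∀ e, MvPolynomial.aeval x (p e) ∈ I ^ (k + 1)) ∧
          f - ∑ e ∈ E, MvPolynomial.aeval x (p e) * e ∈ I ^ (k + 1 + 1)) →
        (∃ p : R → MvPolynomial (Fin N) ℂ, (∀ e, MvPolynomial.aeval x (p e) ∈ I ^ (k + 1)) ∧
          g - ∑ e ∈ E, MvPolynomial.aeval x (p e) * e ∈ I ^ (k + 1 + 1)) →
        (∃ p : R → MvPolynomial (Fin N) ℂ, (∀ e, MvPolynomial.aeval x (p e) ∈ I ^ (k + 1)) ∧
          (f + g) - ∑ e ∈ E, MvPolynomial.aeval x (p e) * e ∈ I ^ (k + 1 + 1)) := by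
      rintro f g ⟨p, hp, hf⟩ ⟨q, hq, hg⟩
      refine ⟨fun e => p e + q e, fun e => by rw [map_add]; exact Ideal.add_mem _ (hp e) (hq e), ?_⟩
      have : f + g - ∑ e ∈ E, MvPolynomial.aeval x (p e + q e) * e =
          (f - ∑ e ∈ E, MvPolynomial.aeval x (p e) * e) +
          (g - ∑ e ∈ E, MvPolynomial.aeval x (q e) * e) := by
        simp only [map_add, add_mul, Finset.sum_add_distrib]
        ring
      rw [this]
      exact Ideal.add_mem _ hf hg
    have hx : ∀ n ∈ I, ∀ m ∈ I ^ k,
        ∃ p : R → MvPolynomial (Fin N) ℂ, (∀ e, MvPolynomial.aeval x (p e) ∈ I ^ (k + 1)) ∧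
          m * n - ∑ e ∈ E, MvPolynomial.aeval x (p e) * e ∈ I ^ (k + 1 + 1) := by
      intro n hn
      refine Submodule.span_induction ?_ ?_ ?_ ?_ hn
      · rintro _ ⟨i, rfl⟩ m hm
        have hxi : x i ∈ I := Ideal.subset_span ⟨i, rfl⟩
        obtain ⟨p, hp, hf⟩ := ih m hm
        refine ⟨fun e => MvPolynomial.X i * p e, fun e => ?_, ?_⟩
        · rw [map_mul, MvPolynomial.aeval_X, pow_succ, mul_comm (x i)]
          exact Ideal.mul_mem_mul (hp e) hxi
        · have : m * x i - ∑ e ∈ E, MvPolynomial.aeval x (MvPolynomial.X i * p e) * e =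
              (m - ∑ e ∈ E, MvPolynomial.aeval x (p e) * e) * x i := by
            rw [sub_mul, Finset.sum_mul]
            congr 1
            refine Finset.sum_congr rfl fun e _ => ?_
            rw [map_mul, MvPolynomial.aeval_X]; ring
          rw [this, pow_succ _ (k + 1)]
          exact Ideal.mul_mem_mul hf hxi
      · intro m _
        exact ⟨fun _ => 0, fun e => by simp, by simp⟩
      · intro y z _ _ hy hz m hm
        rw [mul_add]
        exact hadd _ _ (hy m hm) (hz m hm)
      · intro r y _ hy m hm
        have : m * (r • y) = (r * m) * y := by rw [smul_eq_mul]; ring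
        rw [this]
        exact hy _ (Ideal.mul_mem_left _ _ hm)
    rw [pow_succ] at hf
    refine Submodule.mul_induction_on hf ?_ ?_
    · intro a ha b hb
      exact hx b hb a ha
    · intro a b ha hb
      exact hadd a b ha hb

/-- the local ring is finite over the closure of the algebra generated by parameters -/
theorem int_cl [IsNoetherianRing R] [IsAdicComplete (maximalIdeal R) R]
    (hres : ∀ f : R, ∃ c : ℂ, f - algebraMap ℂ R c ∈ maximalIdeal R) {N : ℕ} (x : Fin N → R)
    (hx : maximalIdeal R ∈ (Ideal.span (Set.range x)).minimalPrimes) (f : R) :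
    IsIntegral (cl x) f := by
  classical
  set I := Ideal.span (Set.range x) with hI
  have hIm : I ≤ maximalIdeal R := hx.1.2
  have hrad : maximalIdeal R ≤ I.radical := by
    rw [Ideal.radical_eq_sInf]
    refine le_sInf fun J hJ => ?_
    exact hx.2 ⟨hJ.2, hJ.1⟩ (IsLocalRing.le_maximalIdeal hJ.2.ne_top)
  obtain ⟨n, hn⟩ := Ideal.exists_pow_le_of_le_radical_of_fg hrad (IsNoetherian.noetherian _)
  obtain ⟨E, hE⟩ := exists_span hres n
  have hE' : ∀ f : R, ∃ e ∈ Submodule.span ℂ (E : Set R), f - e ∈ I := fun f => by
    obtain ⟨e, he, hf⟩ := hE f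
    exact ⟨e, he, hn hf⟩
  have hst := step x E hE'
  choose P hP hP' using hst
  have key : ∀ f : R, f ∈ Submodule.span (cl x) (E : Set R) := by
    intro f
    let r : (k : ℕ) → {g : R // g ∈ I ^ k} := fun k =>
      Nat.rec (motive := fun k => {g : R // g ∈ I ^ k}) ⟨f, by simp⟩
        (fun k g => ⟨g.1 - ∑ e ∈ E, MvPolynomial.aeval x (P k g.1 g.2 e) * e, hP' k g.1 g.2⟩) k
    have hr0 : (r 0).1 = f := rfl
    obtain ⟨q, hrs, hqI⟩ : ∃ q : ℕ → R → MvPolynomial (Fin N) ℂ,
        (∀ k, (r (k + 1)).1 = (r k).1 - ∑ e ∈ E, MvPolynomial.aeval x (q k e) * e) ∧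
        ∀ k e, MvPolynomial.aeval x (q k e) ∈ I ^ k :=
      ⟨fun k => P k (r k).1 (r k).2, fun k => rfl, fun k e => hP k _ _ e⟩
    set s : R → ℕ → R := fun e K => MvPolynomial.aeval x (∑ k ∈ Finset.range K, q k e) with hs
    have hpm : ∀ k, I ^ k ≤ maximalIdeal R ^ k := fun k => Ideal.pow_right_mono hIm k
    have hsm : ∀ e m d, s e (m + d) - s e m ∈ maximalIdeal R ^ m := by
      intro e m d
      induction d with
      | zero => simp
      | succ d ih =>
        have : s e (m + (d + 1)) - s e m =
            (s e (m + d) - s e m) + MvPolynomial.aeval x (q (m + d) e) := by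
          simp only [hs]
          rw [← add_assoc, Finset.sum_range_succ, map_add]
          ring
        rw [this]
        exact Ideal.add_mem _ ih (Ideal.pow_le_pow_right (Nat.le_add_right m d) (hpm _ (hqI _ _)))
    have hex : ∀ e : R, ∃ L : R, ∀ n, s e n - L ∈ maximalIdeal R ^ n := by
      intro e
      obtain ⟨L, hL⟩ := IsPrecomplete.prec (I := maximalIdeal R) (M := R) inferInstance (f := s e)
        (fun {m n} hmn => by
          rw [SModEq.comm, SModEq.sub_mem]
          simp only [smul_eq_mul, Ideal.mul_top]
          obtain ⟨d, rfl⟩ := Nat.exists_eq_add_of_le hmn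
          exact hsm e m d)
      refine ⟨L, fun n => ?_⟩
      have := hL n
      rw [SModEq.sub_mem] at this
      simpa only [smul_eq_mul, Ideal.mul_top] using this
    choose L hL using hex
    have hLc : ∀ e, L e ∈ cl x := by
      intro e k
      refine ⟨∑ j ∈ Finset.range k, q j e, ?_⟩
      have := hL e k
      rw [← neg_sub]
      exact (Ideal.neg_mem_iff _).2 this
    have hrK : ∀ K, f - ∑ e ∈ E, s e K * e = (r K).1 := by
      intro K
      induction K with
      | zero => simp [hs, hr0]
      | succ K ih =>
        rw [hrs, ← ih]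
        simp only [hs]
        rw [sub_sub, ← Finset.sum_add_distrib]
        congr 1
        refine Finset.sum_congr rfl fun e _ => ?_
        rw [Finset.sum_range_succ, map_add]
        ring
    have hfin : f - ∑ e ∈ E, L e * e = 0 := by
      refine IsHausdorff.haus (I := maximalIdeal R) inferInstance _ fun K => ?_
      rw [SModEq.zero]
      simp only [smul_eq_mul, Ideal.mul_top]
      have : f - ∑ e ∈ E, L e * e = (r K).1 + ∑ e ∈ E, (s e K - L e) * e := by
        rw [← hrK K]
        simp only [sub_mul, Finset.sum_sub_distrib]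
        ring
      rw [this]
      refine Ideal.add_mem _ (hpm _ (r K).2) (Ideal.sum_mem _ fun e _ => ?_)
      exact Ideal.mul_mem_right _ _ (hL e K)
    rw [sub_eq_zero.1 hfin]
    refine Submodule.sum_mem _ fun e he => ?_
    have : L e * e = (⟨L e, hLc e⟩ : cl x) • e := rfl
    rw [this]
    exact Submodule.smul_mem _ _ (Submodule.subset_span he)
  have hfg : Module.Finite (cl x) R :=
    ⟨⟨E, by rw [eq_top_iff]; intro f _; exact key f⟩⟩
  exact Algebra.IsIntegral.isIntegral f

/-- a derivation vanishing on parameters is zero -/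
theorem der_zero [IsDomain R] [IsNoetherianRing R] [IsAdicComplete (maximalIdeal R) R]
    (hres : ∀ f : R, ∃ c : ℂ, f - algebraMap ℂ R c ∈ maximalIdeal R) {N : ℕ} (x : Fin N → R)
    (hx : maximalIdeal R ∈ (Ideal.span (Set.range x)).minimalPrimes) (D : Derivation ℂ R R)
    (hD : ∀ i, D (x i) = 0) (f : R) : D f = 0 :=
  der_int (cl x) (int_cl hres x hx) D (der_cl x D hD) f

/-- a function of several variables which is a derivation in each of them and vanishes on parameters
is zero -/
theorem multi_zero [IsDomain R] [IsNoetherianRing R] [IsAdicComplete (maximalIdeal R) R]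
    (hres : ∀ f : R, ∃ c : ℂ, f - algebraMap ℂ R c ∈ maximalIdeal R) {N : ℕ} (x : Fin N → R)
    (hx : maximalIdeal R ∈ (Ideal.span (Set.range x)).minimalPrimes) {ι : Type} [Fintype ι]
    [DecidableEq ι] (Φ : (ι → R) → R)
    (hder : ∀ (f : ι → R) (i : ι), ∃ D : Derivation ℂ R R, ∀ y, Φ (Function.update f i y) = D y)
    (h0 : ∀ σ : ι → Fin N, Φ (fun i => x (σ i)) = 0) (f : ι → R) : Φ f = 0 := by
  classical
  have key : ∀ s : Finset ι, ∀ f : ι → R, (∀ i ∉ s, ∃ j, f i = x j) → Φ f = 0 := by
    intro s
    induction s using Finset.induction_on with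
    | empty =>
      intro f hf
      choose σ hσ using fun i => hf i (Finset.notMem_empty i)
      rw [show f = fun i => x (σ i) from funext hσ]
      exact h0 σ
    | insert i s his ih =>
      intro f hf
      obtain ⟨D, hD⟩ := hder f i
      have h1 : ∀ j, D (x j) = 0 := by
        intro j
        rw [← hD]
        refine ih _ fun l hl => ?_
        by_cases hli : l = i
        · subst hli
          exact ⟨j, by simp⟩
        · rw [Function.update_of_ne hli]
          exact hf l (by simp [hli, hl])
      have h2 := der_zero hres x hx D h1 (f i)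
      rw [← hD, Function.update_eq_self] at h2
      exact h2
  exact key Finset.univ f fun i hi => absurd (Finset.mem_univ i) hi

omit [IsLocalRing R] in
/-- the derivation given by one entry of a multiderivation -/
def slot {N : ℕ} (th : R [⋀^Fin N]→ₗ[ℂ] R) (h : IsMultiDer R N th) (f : Fin N → R) (i : Fin N) :
    Derivation ℂ R R :=
  Derivation.mk' (th.toMultilinearMap.toLinearMap f i) fun a b => by
    change th (Function.update f i (a * b)) = a • th (Function.update f i b) +
      b • th (Function.update f i a)
    rw [h, smul_eq_mul, smul_eq_mul]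

omit [IsLocalRing R] in
theorem slot_apply {N : ℕ} (th : R [⋀^Fin N]→ₗ[ℂ] R) (h : IsMultiDer R N th) (f : Fin N → R)
    (i : Fin N) (y : R) : slot th h f i y = th (Function.update f i y) := rfl

theorem s_CRA : S_CRA := by
  intro R _ _ _ _ _ _ hres N hN hdim th hth D f g
  classical
  obtain ⟨s, hs, hcard⟩ := Ideal.exists_finset_card_eq_height_of_isNoetherianRing (maximalIdeal R)
  have hc : s.card = N := by
    have h1 := IsLocalRing.maximalIdeal_height_eq_ringKrullDim (R := R)
    rw [hdim, ← hcard] at h1
    exact_mod_cast h1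
  let e := s.equivFinOfCardEq hc
  let x : Fin N → R := fun i => (e.symm i : R)
  have hxr : Set.range x = (s : Set R) := by
    ext y
    constructor
    · rintro ⟨i, rfl⟩
      exact (e.symm i).2
    · intro hy
      exact ⟨e ⟨y, hy⟩, by simp [x]⟩
  have hx : maximalIdeal R ∈ (Ideal.span (Set.range x)).minimalPrimes := by
    rw [hxr]; exact hs
  let Φ : (Option (Fin N) → R) → R := fun F =>
    D (F none) * th (fun i => F (some i)) -
      ∑ i, D (F (some i)) * th (Function.update (fun i => F (some i)) i (F none))
  have hup : ∀ (F : Option (Fin N) → R) (j : Fin N) (y : R),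
      (fun i => Function.update F (some j) y (some i)) =
        Function.update (fun i => F (some i)) j y := by
    intro F j y
    funext i
    by_cases hij : i = j
    · subst hij; simp
    · rw [Function.update_of_ne hij, Function.update_of_ne (by simpa using hij)]
  have hder : ∀ (F : Option (Fin N) → R) (i : Option (Fin N)), ∃ D' : Derivation ℂ R R,
      ∀ y, Φ (Function.update F i y) = D' y := by
    intro F i
    rcases i with _ | j
    · refine ⟨th (fun i => F (some i)) • D -
        ∑ i, D (F (some i)) • slot th hth.der (fun i => F (some i)) i, fun y => ?_⟩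
      simp only [Φ, Function.update_self, ne_eq, reduceCtorEq, not_false_eq_true,
        Function.update_of_ne, Derivation.coe_sub, Pi.sub_apply, Derivation.coe_smul,
        Pi.smul_apply, smul_eq_mul]
      rw [mul_comm (D y)]
      congr 1
      rw [← Derivation.coeFnAddMonoidHom_apply (∑ i, _), map_sum, Finset.sum_apply]
      refine Finset.sum_congr rfl fun i _ => ?_
      simp [slot_apply]
    · refine ⟨D (F none) • slot th hth.der (fun i => F (some i)) j -
        (th (Function.update (fun i => F (some i)) j (F none)) • D +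
          ∑ i ∈ Finset.univ.erase j, D (F (some i)) •
            slot th hth.der (Function.update (fun i => F (some i)) i (F none)) j), fun y => ?_⟩
      have h1 : Φ (Function.update F (some j) y) =
          D (F none) * th (Function.update (fun i => F (some i)) j y) -
            ∑ i, D (Function.update (fun i => F (some i)) j y i) *
              th (Function.update (Function.update (fun i => F (some i)) j y) i (F none)) := by
        simp only [Φ]
        rw [hup F j y]
        congr 1
        refine Finset.sum_congr rfl fun i _ => ?_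
        rw [← congrFun (hup F j y) i]
        simp
      rw [h1, ← Finset.add_sum_erase _ _ (Finset.mem_univ j), Function.update_self,
        Function.update_idem]
      simp only [Derivation.coe_sub, Pi.sub_apply, Derivation.coe_smul, Derivation.coe_add,
        Pi.add_apply, Pi.smul_apply, smul_eq_mul, slot_apply]
      rw [mul_comm (D y)]
      congr 2
      rw [← Derivation.coeFnAddMonoidHom_apply (∑ i ∈ _, _), map_sum, Finset.sum_apply]
      refine Finset.sum_congr rfl fun i hi => ?_
      have hij : i ≠ j := (Finset.mem_erase.1 hi).1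
      rw [Function.update_of_ne hij, Function.update_comm hij.symm]
      simp [slot_apply]
  have h0 : ∀ σ : Option (Fin N) → Fin N, Φ (fun i => x (σ i)) = 0 := by
    intro σ
    obtain ⟨a, b, hab, hσ⟩ := Fintype.exists_ne_map_eq_of_card_lt σ (by simp)
    -- two equal entries
    have hsome : ∀ i j : Fin N, i ≠ j → σ (some i) = σ (some j) → Φ (fun i => x (σ i)) = 0 := by
      intro i j hij hs
      set F : Fin N → R := fun l => x (σ (some l)) with hF
      have hFij : F i = F j := by simp only [hF]; rw [hs]
      have h1 : th F = 0 := th.map_eq_zero_of_eq F hFij hij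
      have h2 : ∀ l, l ≠ i → l ≠ j → ∀ y, th (Function.update F l y) = 0 := by
        intro l hli hlj y
        refine th.map_eq_zero_of_eq _ ?_ hij
        rw [Function.update_of_ne hli.symm, Function.update_of_ne hlj.symm, hFij]
      have h3 : ∀ y, th (Function.update F j y) = - th (Function.update F i y) := by
        intro y
        rw [← th.map_swap _ hij]
        congr 1
        funext l
        simp only [Function.comp_apply]
        by_cases hli : l = i
        · subst hli
          rw [Equiv.swap_apply_left, Function.update_of_ne hij, Function.update_of_ne hij.symm, hFij]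
        · by_cases hlj : l = j
          · subst hlj
            rw [Equiv.swap_apply_right, Function.update_self, Function.update_self]
          · rw [Equiv.swap_apply_of_ne_of_ne hli hlj, Function.update_of_ne hli,
              Function.update_of_ne hlj]
      change D (x (σ none)) * th F - ∑ l, D (F l) * th (Function.update F l (x (σ none))) = 0
      rw [h1, mul_zero, zero_sub, neg_eq_zero, ← Finset.add_sum_erase _ _ (Finset.mem_univ i),
        ← Finset.add_sum_erase _ _ (Finset.mem_erase.2 ⟨hij.symm, Finset.mem_univ j⟩),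
        Finset.sum_eq_zero, h3, ← hFij]
      · ring
      · intro l hl
        obtain ⟨hlj, hl'⟩ := Finset.mem_erase.1 hl
        rw [h2 l (Finset.mem_erase.1 hl').1 hlj, mul_zero]
    have hnone : ∀ i : Fin N, σ none = σ (some i) → Φ (fun i => x (σ i)) = 0 := by
      intro i hs
      set F : Fin N → R := fun l => x (σ (some l)) with hF
      have hFi : x (σ none) = F i := by simp only [hF]; rw [hs]
      change D (x (σ none)) * th F - ∑ l, D (F l) * th (Function.update F l (x (σ none))) = 0
      rw [hFi, Finset.sum_eq_single i, Function.update_eq_self, sub_self]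
      · intro l _ hl
        have : th (Function.update F l (F i)) = 0 := by
          refine th.map_eq_zero_of_eq _ ?_ hl
          rw [Function.update_self, Function.update_of_ne hl.symm]
        rw [this, mul_zero]
      · intro h
        exact absurd (Finset.mem_univ i) h
    rcases a with _ | a
    · rcases b with _ | b
      · exact absurd rfl hab
      · exact hnone b hσ
    · rcases b with _ | b
      · exact hnone a hσ.symm
      · exact hsome a b (fun h => hab (by rw [h])) hσ
  have hfin := multi_zero hres x hx Φ hder h0 (fun o => o.elim g f)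
  have h1 : Φ (fun o => o.elim g f) =
      D g * th f - ∑ i, D (f i) * th (Function.update f i g) := rfl
  rw [h1] at hfin
  exact sub_eq_zero.1 hfin

end

end Pool.Agent.Helper46.T1
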